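import Pool.Agent.helper85.SQ.Defs
import Pool.Agent.Lib.SieveInterval

/-!
# SQ project, module T1: type I sums for squares of primes
-/

namespace Pool.Agent.helper85.SQ

open Finset

private lemma T1_card0 (y m v : ℕ) (hm : 0 < m) :
    |(#{n ∈ Ioc 0 y | n ≡ v [MOD m]} : ℝ) - y / m| ≤ 1 := by
  have := Pool.Agent.Lib.BrunHooley.card_modEq_approx 0 y m v hm
  rwa [zero_add] at this

theorem abs_km_le (M b p c : ℕ) (hp : p.Prime) (_hc : Nat.Coprime c (p ^ 2)) (n : ℕ) :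
    |km M b (p ^ 2) c n| ≤ 1 := by
  have hφ : (1 : ℝ) ≤ (Nat.totient (p ^ 2) : ℝ) := by
    have : 0 < Nat.totient (p ^ 2) := Nat.totient_pos.mpr (pow_pos hp.pos 2)
    exact_mod_cast this
  have h1 : (1 : ℝ) / (Nat.totient (p ^ 2) : ℝ) ≤ 1 := by
    rw [div_le_one (by linarith)]; exact hφ
  have h0 : (0 : ℝ) ≤ 1 / (Nat.totient (p ^ 2) : ℝ) := by positivity
  unfold km kr
  rw [abs_le]
  split_ifs <;> constructor <;> linarith

theorem sum_km_mul (M b p c : ℕ) (hM : 0 < M) (hp : p.Prime) (hpM : ¬ p ∣ M)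
    (hb : Nat.Coprime b M) (hc : Nat.Coprime c (p ^ 2)) (d y : ℕ) :
    |∑ k ∈ Ioc 0 y, km M b (p ^ 2) c (d * k)| ≤ 3 := by
  have hcp : ¬ p ∣ c := by
    intro h
    have h1 : p ∣ Nat.gcd c (p ^ 2) := Nat.dvd_gcd h (dvd_pow_self p two_ne_zero)
    rw [hc] at h1
    exact hp.one_lt.ne' (Nat.dvd_one.mp h1)
  by_cases hdp : p ∣ d
  · have h0 : ∀ k ∈ Ioc 0 y, km M b (p ^ 2) c (d * k) = 0 := by
      intro k _
      have h1 : ¬ (d * k ≡ c [MOD p ^ 2]) := by
        intro h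
        apply hcp
        have h2 : d * k ≡ c [MOD p] := h.of_dvd (dvd_pow_self p two_ne_zero)
        exact (Nat.ModEq.dvd_iff h2 (dvd_refl p)).mp (hdp.mul_right k)
      have h2 : ¬ Nat.Coprime (d * k) (p ^ 2) := by
        intro h
        have h1 : p ∣ Nat.gcd (d * k) (p ^ 2) :=
          Nat.dvd_gcd (hdp.mul_right k) (dvd_pow_self p two_ne_zero)
        rw [h] at h1
        exact hp.one_lt.ne' (Nat.dvd_one.mp h1)
      unfold km kr
      rw [if_neg h1, if_neg h2]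
      simp
    rw [sum_eq_zero h0]; norm_num
  by_cases hdM : Nat.Coprime d M
  swap
  · have h0 : ∀ k ∈ Ioc 0 y, km M b (p ^ 2) c (d * k) = 0 := by
      intro k _
      have h1 : ¬ (d * k ≡ b [MOD M]) := by
        intro h
        apply hdM
        have h2 : Nat.gcd (d * k) M = Nat.gcd b M := h.gcd_eq
        rw [hb] at h2
        exact Nat.Coprime.coprime_mul_right h2
      unfold km
      rw [if_neg h1]
    rw [sum_eq_zero h0]; norm_num
  -- main case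
  have hpM' : Nat.Coprime p M := (Nat.Prime.coprime_iff_not_dvd hp).mpr hpM
  have hdp' : Nat.Coprime d p := ((Nat.Prime.coprime_iff_not_dvd hp).mpr hdp).symm
  have hMp2 : Nat.Coprime M (p ^ 2) := (Nat.Coprime.pow_left 2 hpM').symm
  have hdp2 : Nat.Coprime d (p ^ 2) := Nat.Coprime.pow_right 2 hdp'
  -- a class `r` modulo `M p²`
  obtain ⟨e, he⟩ : ∃ e, d * e ≡ 1 [MOD M * p ^ 2] := by
    rcases Nat.lt_or_ge 1 (M * p ^ 2) with h1 | h1
    · obtain ⟨e, he⟩ := Nat.exists_mul_mod_eq_one_of_coprime (Nat.Coprime.mul_right hdM hdp2) h1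
      exact ⟨e, by
        unfold Nat.ModEq
        rw [he.2, Nat.mod_eq_of_lt h1]⟩
    · exfalso
      have h2 := hp.two_le
      nlinarith
  set t := (Nat.chineseRemainder hMp2 b c : ℕ) with ht
  have ht1 : t ≡ b [MOD M] := (Nat.chineseRemainder hMp2 b c).2.1
  have ht2 : t ≡ c [MOD p ^ 2] := (Nat.chineseRemainder hMp2 b c).2.2
  have key : ∀ m : ℕ, m ∣ M * p ^ 2 → ∀ k s : ℕ, s ≡ t [MOD m] →
      (d * k ≡ s [MOD m] ↔ k ≡ e * t [MOD m]) := by
    intro m hm k s hs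
    have he' : d * e ≡ 1 [MOD m] := he.of_dvd hm
    constructor
    · intro h
      calc k = 1 * k := (one_mul k).symm
        _ ≡ (d * e) * k [MOD m] := (he'.symm).mul_right k
        _ = e * (d * k) := by ring
        _ ≡ e * s [MOD m] := h.mul_left e
        _ ≡ e * t [MOD m] := hs.mul_left e
    · intro h
      calc d * k ≡ d * (e * t) [MOD m] := h.mul_left d
        _ = (d * e) * t := by ring
        _ ≡ 1 * t [MOD m] := he'.mul_right t
        _ = t := one_mul t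
        _ ≡ s [MOD m] := hs.symm
  have kM : ∀ k, d * k ≡ b [MOD M] ↔ k ≡ e * t [MOD M] := fun k =>
    key M (dvd_mul_right _ _) k b ht1.symm
  have kp : ∀ k, d * k ≡ c [MOD p ^ 2] ↔ k ≡ e * t [MOD p ^ 2] := fun k =>
    key (p ^ 2) (dvd_mul_left _ _) k c ht2.symm
  have kc : ∀ k, Nat.Coprime (d * k) (p ^ 2) ↔ ¬ k ≡ 0 [MOD p] := by
    intro k
    rw [Nat.coprime_pow_right_iff (by norm_num), Nat.coprime_mul_iff_left, Nat.modEq_zero_iff_dvd,
      Nat.coprime_comm (n := k), Nat.Prime.coprime_iff_not_dvd hp]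
    tauto
  set s := (Nat.chineseRemainder hpM'.symm (e * t) 0 : ℕ) with hs
  have hs1 : s ≡ e * t [MOD M] := (Nat.chineseRemainder hpM'.symm (e * t) 0).2.1
  have hs2 : s ≡ 0 [MOD p] := (Nat.chineseRemainder hpM'.symm (e * t) 0).2.2
  have hφ : (Nat.totient (p ^ 2) : ℝ) = p * (p - 1) := by
    rw [Nat.totient_prime_pow hp (by norm_num)]
    push_cast [Nat.cast_sub hp.one_lt.le]
    norm_num
  have hMr : (0 : ℝ) < M := by exact_mod_cast hM
  have hp2 : (2 : ℝ) ≤ p := by exact_mod_cast hp.two_le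
  have e1 : ∑ k ∈ Ioc 0 y, km M b (p ^ 2) c (d * k)
      = (#{k ∈ Ioc 0 y | k ≡ e * t [MOD M * p ^ 2]} : ℝ)
        - ((#{k ∈ Ioc 0 y | k ≡ e * t [MOD M]} : ℝ) - (#{k ∈ Ioc 0 y | k ≡ s [MOD M * p]} : ℝ))
          / (p * (p - 1)) := by
    have e2 : ∀ k ∈ Ioc 0 y, km M b (p ^ 2) c (d * k)
        = (if k ≡ e * t [MOD M * p ^ 2] then (1 : ℝ) else 0)
          - ((if k ≡ e * t [MOD M] then (1 : ℝ) else 0)
            - (if k ≡ s [MOD M * p] then (1 : ℝ) else 0)) / (p * (p - 1)) := by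
      intro k _
      have q1 : (k ≡ e * t [MOD M * p ^ 2]) ↔ (k ≡ e * t [MOD M]) ∧ (k ≡ e * t [MOD p ^ 2]) :=
        (Nat.modEq_and_modEq_iff_modEq_mul hMp2).symm
      have q2 : (k ≡ s [MOD M * p]) ↔ (k ≡ e * t [MOD M]) ∧ (k ≡ 0 [MOD p]) := by
        rw [← Nat.modEq_and_modEq_iff_modEq_mul hpM'.symm]
        constructor
        · rintro ⟨h1, h2⟩
          exact ⟨h1.trans hs1, h2.trans hs2⟩
        · rintro ⟨h1, h2⟩
          exact ⟨h1.trans hs1.symm, h2.trans hs2.symm⟩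
      unfold km kr
      simp only [kM k, kp k, kc k, q1, q2, hφ]
      by_cases h1 : k ≡ e * t [MOD M]
      · by_cases h2 : k ≡ e * t [MOD p ^ 2] <;> by_cases h3 : k ≡ 0 [MOD p] <;>
          simp [h1, h2, h3]
      · simp [h1]
    rw [sum_congr rfl e2, sum_sub_distrib, ← sum_div, sum_sub_distrib, sum_boole, sum_boole,
      sum_boole]
  rw [e1]
  have b1 := T1_card0 y (M * p ^ 2) (e * t) (Nat.mul_pos hM (pow_pos hp.pos 2))
  have b2 := T1_card0 y M (e * t) hM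
  have b3 := T1_card0 y (M * p) s (Nat.mul_pos hM hp.pos)
  set N1 : ℝ := (#{k ∈ Ioc 0 y | k ≡ e * t [MOD M * p ^ 2]} : ℝ)
  set N2 : ℝ := (#{k ∈ Ioc 0 y | k ≡ e * t [MOD M]} : ℝ)
  set N3 : ℝ := (#{k ∈ Ioc 0 y | k ≡ s [MOD M * p]} : ℝ)
  push_cast at b1 b2 b3
  have hpp : (1 : ℝ) ≤ p * (p - 1) := by nlinarith
  have hpp0 : (0 : ℝ) < (p : ℝ) * (p - 1) := by linarith
  have hp0 : (p : ℝ) ≠ 0 := by linarith
  have hp1 : (p : ℝ) - 1 ≠ 0 := by linarith
  have e3 : N1 - (N2 - N3) / (p * (p - 1))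
      = (N1 - y / (M * p ^ 2)) - ((N2 - y / M) - (N3 - y / (M * p))) / (p * (p - 1)) := by
    field_simp
    ring
  rw [e3]
  have b4 : |((N2 - y / M) - (N3 - y / (M * p))) / (p * (p - 1))| ≤ 2 := by
    rw [abs_div, abs_of_pos hpp0, div_le_iff₀ hpp0]
    calc _ ≤ |N2 - y / M| + |N3 - y / (M * p)| := abs_sub _ _
      _ ≤ 2 := by linarith
      _ ≤ _ := by linarith
  calc _ ≤ |N1 - y / (M * p ^ 2)| + |((N2 - y / M) - (N3 - y / (M * p))) / (p * (p - 1))| :=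
        abs_sub _ _
    _ ≤ 3 := by linarith

end Pool.Agent.helper85.SQ
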